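import Mathlib

/-!
# Monoids with `x ^ (p + 1) = x` (helper345)

In a monoid with `x ^ (p + 1) = x` let `e` be idempotent and a multiple of `v` on both sides; then `(e v e) ^ p = e`.
-/

set_option autoImplicit false

namespace Pool.Agent.Run7.h345.BZ

variable {M : Type*} [Monoid M]

/-- `z` is a two sided multiple of `x` -/
def Ge (x z : M) : Prop := ∃ s t, z = s * x * t

theorem Ge.one (z : M) : Ge 1 z := ⟨z, 1, by simp⟩

theorem Ge.trans {x y z : M} (h1 : Ge x y) (h2 : Ge y z) : Ge x z := by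
  obtain ⟨s, t, rfl⟩ := h1
  obtain ⟨u, v, rfl⟩ := h2
  exact ⟨u * s, t * v, by simp only [mul_assoc]⟩

section

variable {p : ℕ} (hp : 0 < p) (hM : ∀ x : M, x ^ (p + 1) = x)

include hp hM

theorem sq (x : M) : x = x * x * x ^ (p - 1) := by
  obtain ⟨q, rfl⟩ : ∃ q, p = q + 1 := ⟨p - 1, by omega⟩
  have h := hM x
  rw [pow_succ', pow_succ', ← mul_assoc] at h
  exact h.symm

theorem Ge.mul {x y z : M} (hx : Ge x z) (hy : Ge y z) : Ge (x * y) z := by
  obtain ⟨s, t, h1⟩ := hx
  obtain ⟨u, v, h2⟩ := hy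
  set q := y * v * s * x with hq
  have h3 : z = u * q * (t * z ^ (p - 1)) := by
    have := sq hp hM z
    calc z = z * z * z ^ (p - 1) := this
      _ = (u * y * v) * (s * x * t) * z ^ (p - 1) := by rw [← h1, ← h2]
      _ = u * q * (t * z ^ (p - 1)) := by rw [hq]; simp only [mul_assoc]
  have h4 := sq hp hM q
  refine ⟨u * (y * v * s), (v * s * x * q ^ (p - 1)) * (t * z ^ (p - 1)), ?_⟩
  have h5 : q = (y * v * s) * (x * y) * (v * s * x * q ^ (p - 1)) := by
    calc q = q * q * q ^ (p - 1) := h4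
      _ = (y * v * s * x) * (y * v * s * x) * q ^ (p - 1) := by rw [← hq]
      _ = _ := by simp only [mul_assoc]
  calc z = u * q * (t * z ^ (p - 1)) := h3
    _ = u * ((y * v * s) * (x * y) * (v * s * x * q ^ (p - 1))) * (t * z ^ (p - 1)) := by rw [← h5]
    _ = _ := by simp only [mul_assoc]

theorem idem (x : M) : x ^ p * x ^ p = x ^ p := by
  obtain ⟨q, rfl⟩ : ∃ q, p = q + 1 := ⟨p - 1, by omega⟩
  calc x ^ (q + 1) * x ^ (q + 1) = x ^ (q + 1 + 1) * x ^ q := by
        rw [← pow_add, ← pow_add]; congr 1; omega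
    _ = x * x ^ q := by rw [hM]
    _ = x ^ (q + 1) := (pow_succ' x q).symm

theorem main_cr {e v : M} (he : e * e = e) (hv : Ge v e) : (e * v * e) ^ p = e := by
  have g1 : Ge e e := ⟨1, 1, by simp⟩
  have g2 : Ge (e * v * e) e := Ge.mul hp hM (Ge.mul hp hM g1 hv) g1
  set w := e * v * e with hw
  have hew : e * w = w := by rw [hw, ← mul_assoc, ← mul_assoc, he]
  have hwe : w * e = w := by rw [hw, mul_assoc, he]
  have g3 : ∀ k, Ge (w ^ k) e := by
    intro k
    induction k with
    | zero => rw [pow_zero]; exact Ge.one e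
    | succ k ih => rw [pow_succ]; exact Ge.mul hp hM ih g2
  obtain ⟨s, t, hst⟩ := g3 p
  set f := w ^ p with hf
  have hff : f * f = f := idem hp hM w
  have hef : e * f = f := by
    obtain ⟨q, rfl⟩ : ∃ q, p = q + 1 := ⟨p - 1, by omega⟩
    rw [hf, pow_succ', ← mul_assoc, hew]
  have hfe : f * e = f := by
    obtain ⟨q, rfl⟩ : ∃ q, p = q + 1 := ⟨p - 1, by omega⟩
    rw [hf, pow_succ, mul_assoc, hwe]
  have hXY : (e * s * f) * (f * t * e) = e := by
    calc (e * s * f) * (f * t * e) = e * (s * (f * f) * t) * e := by simp only [mul_assoc]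
      _ = e := by rw [hff, ← hst, he, he]
  set X := e * s * f with hX
  set Y := f * t * e with hY
  have hXf : X * f = X := by rw [hX, mul_assoc, hff]
  have hXe : X * e = X := by
    calc X * e = e * s * (f * e) := by rw [hX]; simp only [mul_assoc]
      _ = X := by rw [hfe]
  have hXp : X ^ p = e := by
    have h1 : X ^ p * (X * Y) = e := by
      rw [← mul_assoc, ← pow_succ, hM, hXY]
    rw [hXY] at h1
    obtain ⟨q, rfl⟩ : ∃ q, p = q + 1 := ⟨p - 1, by omega⟩
    rw [pow_succ, mul_assoc, hXe, ← pow_succ] at h1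
    exact h1
  have h2 : X ^ p * f = X ^ p := by
    obtain ⟨q, rfl⟩ : ∃ q, p = q + 1 := ⟨p - 1, by omega⟩
    rw [pow_succ, mul_assoc, hXf]
  rw [hXp, hef] at h2
  exact h2

end

end Pool.Agent.Run7.h345.BZ
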