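import Mathlib
import Pool.Agent.Run7.h345.BZ.CR

/-!
# A class of the congruence `x ~ x ^ (1 + p)` which is not regular (helper345)

If the free group of exponent `p` on two generators is infinite, the class of `(ab) ^ p` for the congruence on the
words in `a, b` generated by `x ~ x ^ (1 + p)` is not regular.
-/

set_option autoImplicit false

namespace Pool.Agent.Run7.h345.BZ

variable {B : Type} [Group B] {p : ℕ}

/-- the congruence -/
def CC (p : ℕ) : Con (FreeMonoid (Fin 2)) :=
  conGen (fun a b : FreeMonoid (Fin 2) => ∃ x : FreeMonoid (Fin 2), a = x ^ 1 ∧ b = x ^ (1 + p))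

theorem coe_pow' (w : FreeMonoid (Fin 2)) (n : ℕ) :
    ((w ^ n : FreeMonoid (Fin 2)) : (CC p).Quotient) = ((w : FreeMonoid (Fin 2)) : (CC p).Quotient) ^ n :=
  map_pow (CC p).mk' w n

theorem quot_pow (x : (CC p).Quotient) : x ^ (p + 1) = x := by
  obtain ⟨w, rfl⟩ := Quotient.exists_rep x
  show ((w : FreeMonoid (Fin 2)) : (CC p).Quotient) ^ (p + 1) = (w : (CC p).Quotient)
  rw [← coe_pow']
  apply (Con.eq (CC p)).2
  apply (CC p).symm
  apply ConGen.Rel.of
  exact ⟨w, (pow_one w).symm, by rw [add_comm]⟩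

/-- the base word -/
def ee (p : ℕ) : FreeMonoid (Fin 2) := (FreeMonoid.of 0 * FreeMonoid.of 1) ^ p

theorem ge_all (hp : 0 < p) (v : FreeMonoid (Fin 2)) :
    Ge ((v : FreeMonoid (Fin 2)) : (CC p).Quotient) ((ee p : FreeMonoid (Fin 2)) : (CC p).Quotient) := by
  have hM : ∀ x : (CC p).Quotient, x ^ (p + 1) = x := quot_pow
  obtain ⟨q, rfl⟩ : ∃ q, p = q + 1 := ⟨p - 1, by omega⟩
  induction v using FreeMonoid.inductionOn with
  | one => exact Ge.one _
  | of i =>
    have : i = 0 ∨ i = 1 := by omega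
    rcases this with rfl | rfl
    · refine ⟨1, ((FreeMonoid.of 1 * ee q : FreeMonoid (Fin 2)) : (CC (q + 1)).Quotient), ?_⟩
      rw [one_mul, ← Con.coe_mul]
      congr 1
      unfold ee
      rw [pow_succ', mul_assoc]
    · refine ⟨((ee q * FreeMonoid.of 0 : FreeMonoid (Fin 2)) : (CC (q + 1)).Quotient), 1, ?_⟩
      rw [mul_one, ← Con.coe_mul]
      congr 1
      unfold ee
      rw [pow_succ, ← mul_assoc]
  | mul x y hx hy =>
    rw [Con.coe_mul]
    exact Ge.mul hp hM hx hy

theorem eve (hp : 0 < p) (v : FreeMonoid (Fin 2)) : CC p ((ee p * v * ee p) ^ p) (ee p) := by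
  apply (Con.eq (CC p)).1
  have hM : ∀ x : (CC p).Quotient, x ^ (p + 1) = x := quot_pow
  have he : ((ee p : FreeMonoid (Fin 2)) : (CC p).Quotient) * ((ee p : FreeMonoid (Fin 2)) : (CC p).Quotient) =
      ((ee p : FreeMonoid (Fin 2)) : (CC p).Quotient) := by
    unfold ee
    rw [coe_pow']
    exact idem hp hM _
  rw [coe_pow', Con.coe_mul, Con.coe_mul]
  exact main_cr hp hM he (ge_all hp v)

/-- the map to a group of exponent `p` -/
def psi (x y : B) : FreeMonoid (Fin 2) →* B := FreeMonoid.lift ![x, y]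

theorem psi_rel (hB : ∀ g : B, g ^ p = 1) (x y : B) {v w : FreeMonoid (Fin 2)} (h : CC p v w) :
    psi x y v = psi x y w := by
  have hle : CC p ≤ Con.ker (psi x y) := by
    apply Con.conGen_le.2
    rintro a b ⟨z, h1, h2⟩
    rw [h1, h2]
    show psi x y (z ^ 1) = psi x y (z ^ (1 + p))
    rw [map_pow, map_pow, pow_add, hB, mul_one]
  exact hle h

theorem not_regular (hp : 0 < p) (hB : ∀ g : B, g ^ p = 1) (x y : B) (hinf : (Set.range (psi x y)).Infinite)
    {σ : Type} [Fintype σ] (M : DFA (Fin 2) σ)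
    (hM : M.accepts = {v : List (Fin 2) | CC p (FreeMonoid.ofList v) (ee p)}) : False := by
  classical
  have hacc : ∀ v : FreeMonoid (Fin 2), M.evalFrom M.start v.toList ∈ M.accept ↔ CC p v (ee p) := by
    intro v
    have : v.toList ∈ M.accepts ↔ v.toList ∈ {v : List (Fin 2) | CC p (FreeMonoid.ofList v) (ee p)} := by
      rw [hM]
      rfl
    exact this
  have key : ∀ v v' : FreeMonoid (Fin 2), (fun q => M.evalFrom q v.toList) = (fun q => M.evalFrom q v'.toList) →
      psi x y v = psi x y v' := by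
    intro v v' hvv
    set e := ee p with he
    obtain ⟨q, hq⟩ : ∃ q, p = q + 1 := ⟨p - 1, by omega⟩
    have h1 : CC p (e * v * (e * (e * v * e) ^ q)) e := by
      have h2 := eve hp v
      rw [← he] at h2
      have h3 : (e * v * e) ^ p = e * v * (e * (e * v * e) ^ q) := by
        rw [hq, pow_succ']
        simp only [mul_assoc]
      rw [← h3]
      exact h2
    have h4 : CC p (e * v' * (e * (e * v * e) ^ q)) e := by
      rw [← hacc] at h1 ⊢
      rw [FreeMonoid.toList_mul, FreeMonoid.toList_mul, DFA.evalFrom_of_append, DFA.evalFrom_of_append] at h1 ⊢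
      rw [← congrFun hvv]
      exact h1
    have h5 := psi_rel hB x y h1
    have h6 := psi_rel hB x y h4
    have hpe : psi x y e = 1 := by
      rw [he]
      unfold ee
      rw [map_pow]
      exact hB _
    rw [map_mul, map_mul] at h5 h6
    exact mul_left_cancel (mul_right_cancel (h5.trans h6.symm))
  apply hinf
  have hfin : (Set.range (fun v : FreeMonoid (Fin 2) => (fun q => M.evalFrom q v.toList : σ → σ))).Finite :=
    Set.toFinite _
  let F : (σ → σ) → B := fun T => if h : ∃ v : FreeMonoid (Fin 2), (fun q => M.evalFrom q v.toList) = T then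
    psi x y h.choose else 1
  refine (Set.toFinite (Set.range F)).subset ?_
  rintro _ ⟨v, rfl⟩
  refine ⟨fun q => M.evalFrom q v.toList, ?_⟩
  have hex : ∃ v' : FreeMonoid (Fin 2), (fun q => M.evalFrom q v'.toList) = fun q => M.evalFrom q v.toList := ⟨v, rfl⟩
  show dite _ _ _ = _
  rw [dif_pos hex]
  exact key _ _ hex.choose_spec

/-- in a torsion group generated by two elements every element is a positive word -/
theorem range_all (hp : 0 < p) (N : Subgroup (FreeGroup (Fin 2))) [N.Normal]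
    (hB : ∀ g : FreeGroup (Fin 2) ⧸ N, g ^ p = 1) :
    Set.range (psi ((FreeGroup.of 0 : FreeGroup (Fin 2)) : FreeGroup (Fin 2) ⧸ N)
      ((FreeGroup.of 1 : FreeGroup (Fin 2)) : FreeGroup (Fin 2) ⧸ N)) = Set.univ := by
  set f := psi ((FreeGroup.of 0 : FreeGroup (Fin 2)) : FreeGroup (Fin 2) ⧸ N)
      ((FreeGroup.of 1 : FreeGroup (Fin 2)) : FreeGroup (Fin 2) ⧸ N) with hf
  have hinv : ∀ g, g ∈ Set.range f → g⁻¹ ∈ Set.range f := by
    rintro _ ⟨v, rfl⟩
    refine ⟨v ^ (p - 1), ?_⟩
    rw [map_pow]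
    apply eq_inv_of_mul_eq_one_left
    rw [← pow_succ]
    have : p - 1 + 1 = p := by omega
    rw [this]
    exact hB _
  have hgen : ∀ i : Fin 2, ((FreeGroup.of i : FreeGroup (Fin 2)) : FreeGroup (Fin 2) ⧸ N) ∈ Set.range f := by
    intro i
    refine ⟨FreeMonoid.of i, ?_⟩
    rw [hf]
    unfold psi
    rw [FreeMonoid.lift_eval_of]
    fin_cases i <;> rfl
  apply Set.eq_univ_of_forall
  intro g
  obtain ⟨w, rfl⟩ := QuotientGroup.mk_surjective g
  induction w using FreeGroup.induction_on with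
  | C1 => exact ⟨1, by rw [map_one]; rfl⟩
  | of i => exact hgen i
  | inv_of i _ => exact hinv _ (hgen i)
  | mul a b ha hb =>
    obtain ⟨u, hu⟩ := ha
    obtain ⟨v, hv⟩ := hb
    exact ⟨u * v, by rw [map_mul, hu, hv]; rfl⟩

end Pool.Agent.Run7.h345.BZ
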